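import Pool.Agent.helper56.CY.Spec

/-! Row cy:DEG (MP_45d809). -/

set_option autoImplicit false

namespace Pool.Agent.CY

open Finset CT

theorem DEG : DEG_stmt := by
  intro V _ S e c w hA hS hE hw
  have hw' := hw
  unfold Wt at hw'
  rw [mem_filter] at hw'
  obtain ⟨hwS, _⟩ := hw'
  have hsum := card_filter_add_card_filter_not (s := (univ : Finset (Fin 4))) (fun l => c (w, l) = 0)
  rw [card_univ, Fintype.card_fin] at hsum
  constructor
  · have h0 := hE.2 w hwS 0
    rw [Nat.even_iff] at h0 ⊢
    have e1 : ((univ : Finset (Fin 4)).filter fun l => c (w, l) ≠ 0).card =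
        ((univ : Finset (Fin 4)).filter fun l => ¬ c (w, l) = 0).card := rfl
    omega
  · have hmap : ((univ : Finset (Fin 4)).filter fun l => c (w, l) ≠ 0).image (fun l => (e (w, l)).1) ⊆
        (Wt S c).erase w := by
      intro v hv
      rw [mem_image] at hv
      obtain ⟨l, hl, rfl⟩ := hv
      rw [mem_filter] at hl
      have h1 : (w, l) ∈ dts S := by
        unfold dts
        rw [mem_product]
        exact ⟨hwS, mem_univ _⟩
      have h2 : e (w, l) ∈ dts S := by
        rw [← hA.2, hA.1]
        exact fun h => (hA.2 (w, l)).2 h1 h.symm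
      have h3 : (e (w, l)).1 ∈ S := by
        unfold dts at h2
        rw [mem_product] at h2
        exact h2.1
      rw [mem_erase]
      refine ⟨hS.1 w hwS l, ?_⟩
      unfold Wt
      rw [mem_filter]
      refine ⟨h3, (e (w, l)).2, ?_⟩
      have h4 : c (e (w, l)) = c (w, l) := hE.1 (w, l)
      rw [Prod.mk.eta, h4]
      exact hl.2
    have hcard := card_le_card hmap
    rw [card_image_of_injOn (fun a _ b _ hab => hS.2 w hwS a b hab), card_erase_of_mem hw] at hcard
    have hpos : 0 < (Wt S c).card := card_pos.2 ⟨w, hw⟩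
    omega

end Pool.Agent.CY
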